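import Mathlib

/-!
# Upper embeddability of a configuration depends on the orientation

The configuration has `27` points. Three copies of the Fano plane minus an incidence are attached to
six blocks in such a way that in an embedding with one extra face each copy behaves as if it
had been cut off; what remains (and has to be embedded with one extra face) is a graph in which the
blocks `0`, `1`, `3`, `4` enforce a condition on the orientation.
-/

set_option autoImplicit false

namespace Pool.Agent.Results.MP_e7dc11_co.OrientationDependence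

open Finset

/-- A symmetric configuration `v₃` with point set `V` and block set `B`. -/
structure Config (V B : Type) [Fintype V] [DecidableEq V] [Fintype B] where
  /-- The points of a block. -/
  pts : B → Finset V
  card_eq : Fintype.card B = Fintype.card V
  card_block : ∀ b, (pts b).card = 3
  card_degree : ∀ p, (univ.filter (fun b => p ∈ pts b)).card = 3
  linear : ∀ p q, p ≠ q → ∀ b c, p ∈ pts b → q ∈ pts b → p ∈ pts c → q ∈ pts c → b = c

variable {V B : Type} [Fintype V] [DecidableEq V] [Fintype B]

/-- The associated graph. -/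
def Config.graph (X : Config V B) : SimpleGraph V where
  Adj p q := p ≠ q ∧ ∃ b, p ∈ X.pts b ∧ q ∈ X.pts b
  symm := ⟨fun _ _ h => ⟨h.1.symm, h.2.imp fun _ h' => ⟨h'.2, h'.1⟩⟩⟩
  loopless := ⟨fun _ h => h.1 rfl⟩

/-- An orientation: a cyclic order of the three points of each block (`next b p` is the point
that follows `p` in the block `b`). -/
structure Orientation (X : Config V B) where
  /-- The point that follows `p` in the block `b`. -/
  next : B → V → V
  mem : ∀ b, ∀ p ∈ X.pts b, next b p ∈ X.pts b
  ne : ∀ b, ∀ p ∈ X.pts b, next b p ≠ p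
  inj : ∀ b, ∀ p ∈ X.pts b, ∀ q ∈ X.pts b, next b p = next b q → p = q

/-- A rotation system of the associated graph: a cyclic order of the neighbours of each vertex
(`rot p q` is the neighbour of `p` that follows the neighbour `q`). -/
structure Rotation (X : Config V B) where
  /-- The neighbour of `p` that follows `q`. -/
  rot : V → V → V
  mem : ∀ p q, X.graph.Adj p q → X.graph.Adj p (rot p q)
  cyclic : ∀ p q r, X.graph.Adj p q → X.graph.Adj p r → ∃ n : ℕ, (rot p)^[n] q = r

/-- Face tracing: the dart after `(p, q)` on the boundary of its face. -/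
def Rotation.face {X : Config V B} (R : Rotation X) (d : V × V) : V × V := (d.2, R.rot d.2 d.1)

/-- The darts that do not lie on the boundary of an oriented block. -/
def Other {X : Config V B} (ω : Orientation X) (d : V × V) : Prop :=
  X.graph.Adj d.1 d.2 ∧ ¬ ∃ b, d.1 ∈ X.pts b ∧ d.2 = ω.next b d.1

/-- `X` is upper embeddable in the orientation `ω`: for some rotation system every block, in the
cyclic order given by `ω`, is the boundary of a face and all the remaining darts form one face. -/
def UpperEmbeddable (X : Config V B) (ω : Orientation X) : Prop :=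
  ∃ R : Rotation X,
    (∀ b, ∀ p ∈ X.pts b, R.face (p, ω.next b p) = (ω.next b p, ω.next b (ω.next b p))) ∧
    (∀ d d', Other ω d → Other ω d' → ∃ n : ℕ, R.face^[n] d = d')

/-! ### Tables -/

/-- The points of the flags. -/
def tPt : ℕ := 58490689316508824896188623865203813498253993795053859474900150819456484143235335668127771014278465614968871519822607815809

/-- The next flag at the same point. -/
def tR : ℕ := 242051289902195201165259158396567839875406740065909476656387934881369190004855767729999714732043766451823978904779571360712992918035473278523281014281369077329429478408845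

/-- The involution at the special points. -/
def tS : ℕ := 304116922518046087871383928656647472813553963101000355631695292120548676580438050679927464735300335382229027398850368860100830438302357949452240147251204430366948559323264

/-- A flag at each point. -/
def tFl : ℕ := 438509788716109308863424652684900434979532591692712574979

/-- Table look-up. -/
def look (t : ℕ) (f : Fin 81) : Fin 81 := ⟨t / 128 ^ f.val % 128 % 81, Nat.mod_lt _ (by norm_num)⟩

/-- The point of a flag. -/
def pt (f : Fin 81) : Fin 27 := ⟨tPt / 32 ^ f.val % 32 % 27, Nat.mod_lt _ (by norm_num)⟩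

/-- The next flag at the same point. -/
def R₀ (f : Fin 81) : Fin 81 := look tR f

/-- The involution at the special points. -/
def S₀ (f : Fin 81) : Fin 81 := look tS f

/-- A flag at the point `p`. -/
def fl (p : Fin 27) : Fin 81 := ⟨tFl / 128 ^ p.val % 128 % 81, Nat.mod_lt _ (by norm_num)⟩

/-- The flag of the preceding point of the block. -/
def tau (f : Fin 81) : Fin 81 := ⟨(3 * (f.val / 3) + (f.val % 3 + 2) % 3) % 81, Nat.mod_lt _ (by norm_num)⟩

/-- The flag of the following point of the block. -/
def tau' (f : Fin 81) : Fin 81 := ⟨(3 * (f.val / 3) + (f.val % 3 + 1) % 3) % 81, Nat.mod_lt _ (by norm_num)⟩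

/-- The flag of a block and a position. -/
def mk (b : Fin 27) (k : Fin 3) : Fin 81 := ⟨(3 * b.val + k.val) % 81, Nat.mod_lt _ (by norm_num)⟩

/-- The block of a flag. -/
def bl (f : Fin 81) : Fin 27 := ⟨f.val / 3 % 27, Nat.mod_lt _ (by norm_num)⟩

/-- The special points. -/
def spec (p : Fin 27) : Bool := p = 0 || p = 3 || p = 5 || p = 6 || p = 13 || p = 20

/-- The six flags that are cut off. -/
def cut : Fin 3 → Bool → Fin 81 := fun m s =>
  if s then ![7, 8, 17] m else ![18, 39, 60] m

/-- The part of a flag: `0` is the outer part, `1`, `2`, `3` are the copies of the Fano plane. -/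
def part (f : Fin 81) : Fin 4 := ⟨(if f.val < 18 then 0 else (f.val - 18) / 21 + 1) % 4,
  Nat.mod_lt _ (by norm_num)⟩

theorem pt_R : ∀ f, pt (R₀ f) = pt f := by decide +kernel
theorem pt_S : ∀ f, pt (S₀ f) = pt f := by decide +kernel
theorem RRR : ∀ f, R₀ (R₀ (R₀ f)) = f := by decide +kernel
theorem SS : ∀ f, S₀ (S₀ f) = f := by decide +kernel
theorem R_ne : ∀ f, R₀ f ≠ f := by decide +kernel
theorem RR_ne : ∀ f, R₀ (R₀ f) ≠ f := by decide +kernel
theorem tau_tau' : ∀ f, tau (tau' f) = f := by decide +kernel
theorem tau'_tau : ∀ f, tau' (tau f) = f := by decide +kernel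
theorem tau_tau : ∀ f, tau (tau f) = tau' f := by decide +kernel
theorem fiber : ∀ f g, pt f = pt g → g = f ∨ g = R₀ f ∨ g = R₀ (R₀ f) := by decide +kernel
theorem pt_fl : ∀ p, pt (fl p) = p := by decide +kernel
theorem part_tau : ∀ f, part (tau f) = part f := by decide +kernel
theorem part_S : ∀ f, spec (pt f) = true → part (S₀ f) = part f := by decide +kernel
theorem part_R : ∀ f, spec (pt f) = false → part (R₀ f) = part f := by decide +kernel
theorem part_cut1 : ∀ m, part (cut m true) = 0 := by decide +kernel
theorem part_cut2 : ∀ m : Fin 3, part (cut m false) = m.succ := by decide +kernel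
theorem part_Rcut1 : ∀ m : Fin 3, part (R₀ (cut m true)) = m.succ ∧
    part (R₀ (R₀ (cut m true))) = m.succ := by decide +kernel
theorem part_Rcut2 : ∀ m : Fin 3, part (R₀ (cut m false)) = 0 ∧
    part (R₀ (R₀ (cut m false))) = 0 := by decide +kernel
theorem spec_cut : ∀ f, spec (pt f) = true → ∃ m s, pt f = pt (cut m s) ∧
    S₀ (cut m s) = cut m s ∧ S₀ (R₀ (cut m s)) = R₀ (R₀ (cut m s)) ∧
    S₀ (R₀ (R₀ (cut m s))) = R₀ (cut m s) := by decide +kernel
theorem card_part : ∀ m : Fin 3, (univ.filter (fun f : Fin 81 => part f = m.succ)).card = 21 := by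
  decide +kernel
theorem card_part0 : (univ.filter (fun f : Fin 81 => part f = 0)).card = 18 := by decide +kernel

/-- The rotation at the points given by `c`. -/
def sig (c : Fin 27 → Bool) (f : Fin 81) : Fin 81 := if c (pt f) then R₀ f else R₀ (R₀ f)

/-- The rotation after cutting. -/
def sigs (c : Fin 27 → Bool) (f : Fin 81) : Fin 81 :=
  if spec (pt f) then S₀ f else sig c f


theorem pt_sig (c : Fin 27 → Bool) (f : Fin 81) : pt (sig c f) = pt f := by
  unfold sig
  split_ifs
  · exact pt_R f
  · rw [pt_R, pt_R]

theorem pt_sigs (c : Fin 27 → Bool) (f : Fin 81) : pt (sigs c f) = pt f := by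
  unfold sigs
  split_ifs
  · exact pt_S f
  · exact pt_sig c f

/-- The inverse of `sigs`. -/
def sigsInv (c : Fin 27 → Bool) (f : Fin 81) : Fin 81 :=
  if spec (pt f) then S₀ f else if c (pt f) then R₀ (R₀ f) else R₀ f

theorem pt_sigsInv (c : Fin 27 → Bool) (f : Fin 81) : pt (sigsInv c f) = pt f := by
  unfold sigsInv
  split_ifs
  · exact pt_S f
  · rw [pt_R, pt_R]
  · exact pt_R f

/-- `sigs` as a permutation. -/
def sigsPerm (c : Fin 27 → Bool) : Equiv.Perm (Fin 81) where
  toFun := sigs c
  invFun := sigsInv c
  left_inv f := by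
    have h := pt_sigs c f
    unfold sigsInv
    rw [h]
    unfold sigs sig
    split_ifs <;> simp [SS, RRR]
  right_inv f := by
    have h := pt_sigsInv c f
    unfold sigs sig
    rw [h]
    unfold sigsInv
    split_ifs <;> simp [SS, RRR]

/-- `tau` as a permutation. -/
def tauPerm : Equiv.Perm (Fin 81) where
  toFun := tau
  invFun := tau'
  left_inv := tau'_tau
  right_inv := tau_tau'

/-- The face permutation after cutting. -/
def G (c : Fin 27 → Bool) : Equiv.Perm (Fin 81) := sigsPerm c * tauPerm

theorem G_apply (c : Fin 27 → Bool) (f : Fin 81) : G c f = sigs c (tau f) := rfl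

theorem part_sigs (c : Fin 27 → Bool) (f : Fin 81) : part (sigs c f) = part f := by
  unfold sigs sig
  split_ifs with h h'
  · exact part_S f h
  · exact part_R f (by simpa using h)
  · rw [part_R _ (by rw [pt_R]; simpa using h), part_R f (by simpa using h)]

theorem part_G (c : Fin 27 → Bool) (f : Fin 81) : part (G c f) = part f := by
  rw [G_apply, part_sigs, part_tau]

theorem part_iter (c : Fin 27 → Bool) (f : Fin 81) (n : ℕ) : part ((G c)^[n] f) = part f := by
  induction n with
  | zero => rfl
  | succ n ih => rw [Function.iterate_succ_apply', part_G, ih]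

theorem part_same (c : Fin 27 → Bool) (f g : Fin 81) (h : (G c).SameCycle f g) :
    part f = part g := by
  obtain ⟨n, hn⟩ := h.exists_nat_pow_eq
  rw [← hn, ← part_iter c f n, Equiv.Perm.iterate_eq_pow]

/-- A short orbit misses a point. -/
theorem exists_notSame (K : Equiv.Perm (Fin 81)) (a : Fin 81) (n : ℕ) (hn : 0 < n)
    (h : K^[n] a = a) (S : Finset (Fin 81)) (hS : n < S.card) : ∃ x ∈ S, ¬ K.SameCycle a x := by
  by_contra hc
  push Not at hc
  have hsub : S ⊆ (range n).image (fun i => K^[i] a) := by
    intro x hx
    obtain ⟨i, hi⟩ := (hc x hx).exists_nat_pow_eq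
    rw [mem_image]
    refine ⟨i % n, mem_range.2 (Nat.mod_lt _ hn), ?_⟩
    rw [← hi, ← Equiv.Perm.iterate_eq_pow]
    have hper : Function.IsPeriodicPt K n a := h
    exact hper.iterate_mod_apply i
  have h1 := card_le_card hsub
  have h2 := card_image_le (s := range n) (f := fun i => K^[i] a)
  rw [card_range] at h2
  omega

/-- The check for a copy of the Fano plane. -/
def cFano (m : Fin 3) (b : Fin 6 → Bool) (p : Fin 27) : Bool :=
  if p.val = 7 + 7 * m.val then b 0 else if p.val = 8 + 7 * m.val then b 1 else
  if p.val = 9 + 7 * m.val then b 2 else if p.val = 10 + 7 * m.val then b 3 else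
  if p.val = 11 + 7 * m.val then b 4 else b 5

/-- The check for the outer part. -/
def cOut (b₁ b₂ b₄ : Bool) (p : Fin 27) : Bool :=
  if p = 1 then b₁ else if p = 2 then b₂ else b₄

/-- Steps of the permutation without proofs. -/
def step (c : Fin 27 → Bool) (f : Fin 81) : Fin 81 := sigs c (tau f)

theorem check_fano : ∀ m : Fin 3, ∀ b0 b1 b2 b3 b4 b5 : Bool, ∀ s : Bool,
    ∃ n ∈ Finset.Icc 1 20, (step (cFano m ![b0, b1, b2, b3, b4, b5]))^[n]
      (if s then R₀ (cut m true) else R₀ (R₀ (cut m true))) =
      (if s then R₀ (cut m true) else R₀ (R₀ (cut m true))) := by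
  decide +kernel

theorem check_out : ∀ b1 b2 b4 : Bool,
    ∃ n ∈ Finset.Icc 1 17, (step (cOut b1 b2 b4))^[n] 0 = 0 := by
  decide +kernel


theorem loc_fano : ∀ m : Fin 3, ∀ f, part f = m.succ → spec (pt f) = true ∨
    ((pt f).val = 7 + 7 * m.val ∨ (pt f).val = 8 + 7 * m.val ∨ (pt f).val = 9 + 7 * m.val ∨
     (pt f).val = 10 + 7 * m.val ∨ (pt f).val = 11 + 7 * m.val ∨ (pt f).val = 12 + 7 * m.val) := by
  decide +kernel

theorem loc_out : ∀ f, part f = 0 → spec (pt f) = true ∨ pt f = 1 ∨ pt f = 2 ∨ pt f = 4 := by
  decide +kernel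

theorem sigs_congr (c c' : Fin 27 → Bool) (f : Fin 81)
    (h : spec (pt f) = true ∨ c (pt f) = c' (pt f)) : sigs c f = sigs c' f := by
  unfold sigs sig
  rcases h with h | h
  · rw [if_pos h, if_pos h]
  · rw [h]

theorem step_congr (c c' : Fin 27 → Bool) (i : Fin 4)
    (h : ∀ f, part f = i → spec (pt f) = true ∨ c (pt f) = c' (pt f)) (f : Fin 81)
    (hf : part f = i) (n : ℕ) : (G c)^[n] f = (step c')^[n] f := by
  induction n with
  | zero => rfl
  | succ n ih =>
      rw [Function.iterate_succ_apply', Function.iterate_succ_apply', ← ih, G_apply, step]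
      refine sigs_congr c c' _ (h _ ?_)
      rw [part_tau, part_iter, hf]

theorem fano_small (c : Fin 27 → Bool) (m : Fin 3) :
    ∃ n, 0 < n ∧ n < 21 ∧ (G c)^[n] (sig c (cut m true)) = sig c (cut m true) := by
  have hv : ∀ j : ℕ, j < 6 → 7 + 7 * m.val + j < 27 := by
    intro j hj
    have := m.2
    omega
  set b : Fin 6 → Bool := fun j => c ⟨7 + 7 * m.val + j.val, hv j.val j.2⟩ with hb
  have hagree : ∀ f, part f = m.succ → spec (pt f) = true ∨ c (pt f) = cFano m b (pt f) := by
    intro f hf
    rcases loc_fano m f hf with h | h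
    · exact Or.inl h
    · right
      obtain ⟨p, hp⟩ : ∃ p, p = pt f := ⟨_, rfl⟩
      rw [← hp] at h ⊢
      rcases h with h | h | h | h | h | h
      · have e : p = ⟨7 + 7 * m.val + 0, hv 0 (by norm_num)⟩ := Fin.ext h
        unfold cFano
        rw [if_pos h, e]
        rfl
      · have e : p = ⟨7 + 7 * m.val + 1, hv 1 (by norm_num)⟩ := Fin.ext (by simp only; omega)
        unfold cFano
        rw [if_neg (by omega), if_pos h, e]
        rfl
      · have e : p = ⟨7 + 7 * m.val + 2, hv 2 (by norm_num)⟩ := Fin.ext (by simp only; omega)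
        unfold cFano
        rw [if_neg (by omega), if_neg (by omega), if_pos h, e]
        rfl
      · have e : p = ⟨7 + 7 * m.val + 3, hv 3 (by norm_num)⟩ := Fin.ext (by simp only; omega)
        unfold cFano
        rw [if_neg (by omega), if_neg (by omega), if_neg (by omega), if_pos h, e]
        rfl
      · have e : p = ⟨7 + 7 * m.val + 4, hv 4 (by norm_num)⟩ := Fin.ext (by simp only; omega)
        unfold cFano
        rw [if_neg (by omega), if_neg (by omega), if_neg (by omega), if_neg (by omega),
          if_pos h, e]
        rfl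
      · have e : p = ⟨7 + 7 * m.val + 5, hv 5 (by norm_num)⟩ := Fin.ext (by simp only; omega)
        unfold cFano
        rw [if_neg (by omega), if_neg (by omega), if_neg (by omega), if_neg (by omega),
          if_neg (by omega), e]
        rfl
  have hbv : b = ![b 0, b 1, b 2, b 3, b 4, b 5] := by
    ext j
    fin_cases j <;> rfl
  have key : ∀ s : Bool, ∃ n, 0 < n ∧ n < 21 ∧
      (G c)^[n] (if s then R₀ (cut m true) else R₀ (R₀ (cut m true))) =
      (if s then R₀ (cut m true) else R₀ (R₀ (cut m true))) := by
    intro s
    obtain ⟨n, hn, h⟩ := check_fano m (b 0) (b 1) (b 2) (b 3) (b 4) (b 5) s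
    rw [mem_Icc] at hn
    refine ⟨n, by omega, by omega, ?_⟩
    rw [step_congr c (cFano m b) m.succ hagree _ ?_ n, hbv]
    · exact h
    · cases s
      · exact (part_Rcut1 m).2
      · exact (part_Rcut1 m).1
  have h := key (c (pt (cut m true)))
  unfold sig
  exact h

theorem out_small (c : Fin 27 → Bool) : ∃ n, 0 < n ∧ n < 18 ∧ (G c)^[n] 0 = 0 := by
  obtain ⟨n, hn, h⟩ := check_out (c 1) (c 2) (c 4)
  rw [mem_Icc] at hn
  refine ⟨n, by omega, by omega, ?_⟩
  rw [step_congr c (cOut (c 1) (c 2) (c 4)) 0 ?_ 0 (by decide +kernel) n]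
  · exact h
  · intro f hf
    rcases loc_out f hf with h | h | h | h
    · exact Or.inl h
    · right; rw [h]; rfl
    · right; rw [h]; rfl
    · right; rw [h]; rfl

/-- A set closed under the cut permutation and compatible with the cuts is closed under the
original face permutation. -/
theorem closed (c : Fin 27 → Bool) (U : Set (Fin 81)) (hG : ∀ f ∈ U, G c f ∈ U)
    (hcut : ∀ m s, cut m s ∈ U ↔ sig c (cut m s) ∈ U) (f : Fin 81) (hf : f ∈ U) :
    sig c (tau f) ∈ U := by
  have h1 := hG f hf
  rw [G_apply] at h1
  obtain ⟨y, hy⟩ : ∃ y, y = tau f := ⟨_, rfl⟩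
  rw [← hy] at h1 ⊢
  by_cases hs : spec (pt y) = true
  · obtain ⟨m, s, e1, e2, e3, e4⟩ := spec_cut y hs
    obtain ⟨z, hz⟩ : ∃ z, z = cut m s := ⟨_, rfl⟩
    have hc := hcut m s
    rw [← hz] at e1 e2 e3 e4 hc
    have hpz : spec (pt z) = true := by rw [← e1]; exact hs
    unfold sigs at h1
    rw [if_pos hs] at h1
    unfold sig at hc ⊢
    rw [e1]
    rcases fiber z y e1.symm with h | h | h
    · rw [h] at h1 ⊢
      rw [e2] at h1
      exact hc.1 h1
    · rw [h] at h1 ⊢
      rw [e3] at h1
      by_cases hcz : c (pt z) = true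
      · rw [if_pos hcz]; exact h1
      · rw [if_neg hcz] at hc ⊢
        rw [RRR]
        exact hc.2 h1
    · rw [h] at h1 ⊢
      rw [e4] at h1
      by_cases hcz : c (pt z) = true
      · rw [if_pos hcz] at hc ⊢
        rw [RRR]
        exact hc.2 h1
      · rw [if_neg hcz, RRR]; exact h1
  · unfold sigs at h1
    rw [if_neg hs] at h1
    exact h1

theorem part_sig_cut (c : Fin 27 → Bool) (m : Fin 3) :
    part (sig c (cut m true)) = m.succ ∧ part (sig c (cut m false)) = 0 := by
  unfold sig
  constructor
  · split_ifs
    · exact (part_Rcut1 m).1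
    · exact (part_Rcut1 m).2
  · split_ifs
    · exact (part_Rcut2 m).1
    · exact (part_Rcut2 m).2

/-- In the bad orientation there is no choice of the rotations at the points with a single
face. -/
theorem not_transitive (c : Fin 27 → Bool) :
    ¬ ∀ f g : Fin 81, ∃ n : ℕ, (fun f => sig c (tau f))^[n] f = g := by
  intro htr
  -- it suffices to find a proper nonempty closed set
  have key : ∀ U : Set (Fin 81), (∀ f ∈ U, G c f ∈ U) →
      (∀ m s, cut m s ∈ U ↔ sig c (cut m s) ∈ U) → ∀ x ∈ U, ∀ y, y ∉ U → False := by
    intro U h1 h2 x hx y hy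
    obtain ⟨n, hn⟩ := htr x y
    apply hy
    rw [← hn]
    clear hn
    induction n with
    | zero => exact hx
    | succ n ih =>
        rw [Function.iterate_succ_apply']
        exact closed c U h1 h2 _ ih
  have hsame : ∀ a x, (G c).SameCycle a x → (G c).SameCycle a (G c x) := by
    intro a x h
    exact h.trans (Equiv.Perm.SameCycle.refl _ _).apply_right
  have hsame' : ∀ a x, (G c).SameCycle a (G c x) → (G c).SameCycle a x := by
    intro a x h
    exact Equiv.Perm.sameCycle_apply_right.1 h
  by_cases hcase : ∃ m, (G c).SameCycle (sig c (cut m true)) (cut m false)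
  · obtain ⟨m, hm⟩ := hcase
    obtain ⟨n, hn, hn21, hn'⟩ := fano_small c m
    obtain ⟨x, hxS, hx⟩ := exists_notSame (G c) _ n hn hn'
      (univ.filter (fun f : Fin 81 => part f = m.succ)) (by rw [card_part]; exact hn21)
    rw [mem_filter] at hxS
    refine key {f | part f = m.succ ∧ ¬ (G c).SameCycle (sig c (cut m true)) f} ?_ ?_ x
      ⟨hxS.2, hx⟩ (sig c (cut m true)) (fun h => h.2 (Equiv.Perm.SameCycle.refl _ _))
    · rintro f ⟨hf1, hf2⟩
      exact ⟨by rw [part_G, hf1], fun h => hf2 (hsame' _ _ h)⟩
    · intro k s
      cases s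
      · constructor
        · rintro ⟨h1, h2⟩
          exfalso
          rw [part_cut2] at h1
          have : k = m := Fin.succ_injective _ h1
          rw [this] at h2
          exact h2 hm
        · rintro ⟨h1, -⟩
          exfalso
          rw [(part_sig_cut c k).2] at h1
          exact absurd h1.symm (Fin.succ_ne_zero m)
      · constructor
        · rintro ⟨h1, -⟩
          exfalso
          rw [part_cut1] at h1
          exact absurd h1.symm (Fin.succ_ne_zero m)
        · rintro ⟨h1, h2⟩
          exfalso
          rw [(part_sig_cut c k).1] at h1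
          have : k = m := Fin.succ_injective _ h1
          rw [this] at h2
          exact h2 (Equiv.Perm.SameCycle.refl _ _)
  · push Not at hcase
    obtain ⟨n, hn, hn18, hn'⟩ := out_small c
    obtain ⟨x, hxS, hx⟩ := exists_notSame (G c) _ n hn hn'
      (univ.filter (fun f : Fin 81 => part f = 0)) (by rw [card_part0]; exact hn18)
    rw [mem_filter] at hxS
    have hp0 : part 0 = 0 := by decide +kernel
    refine key {f | (G c).SameCycle 0 f ∨ ∃ m, ((G c).SameCycle 0 (cut m true) ∧
      (G c).SameCycle (sig c (cut m true)) f) ∨ ((G c).SameCycle 0 (sig c (cut m false)) ∧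
      (G c).SameCycle (cut m false) f)} ?_ ?_ 0 (Or.inl (Equiv.Perm.SameCycle.refl _ _)) x ?_
    · rintro f (h | ⟨m, ⟨h1, h2⟩ | ⟨h1, h2⟩⟩)
      · exact Or.inl (hsame _ _ h)
      · exact Or.inr ⟨m, Or.inl ⟨h1, hsame _ _ h2⟩⟩
      · exact Or.inr ⟨m, Or.inr ⟨h1, hsame _ _ h2⟩⟩
    · intro k s
      cases s
      · constructor
        · rintro (h | ⟨m, ⟨h1, h2⟩ | ⟨h1, h2⟩⟩)
          · have := part_same c _ _ h
            rw [hp0, part_cut2] at this
            exact absurd this.symm (Fin.succ_ne_zero k)
          · have := part_same c _ _ h2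
            rw [(part_sig_cut c m).1, part_cut2] at this
            have hmk : m = k := Fin.succ_injective _ this
            rw [hmk] at h2
            exact absurd h2 (hcase k)
          · have := part_same c _ _ h2
            rw [part_cut2, part_cut2] at this
            have hmk : m = k := Fin.succ_injective _ this
            rw [hmk] at h1
            exact Or.inl h1
        · rintro (h | ⟨m, ⟨h1, h2⟩ | ⟨h1, h2⟩⟩)
          · exact Or.inr ⟨k, Or.inr ⟨h, Equiv.Perm.SameCycle.refl _ _⟩⟩
          · have := part_same c _ _ h2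
            rw [(part_sig_cut c m).1, (part_sig_cut c k).2] at this
            exact absurd this (Fin.succ_ne_zero m)
          · have := part_same c _ _ h2
            rw [part_cut2, (part_sig_cut c k).2] at this
            exact absurd this (Fin.succ_ne_zero m)
      · constructor
        · rintro (h | ⟨m, ⟨h1, h2⟩ | ⟨h1, h2⟩⟩)
          · exact Or.inr ⟨k, Or.inl ⟨h, Equiv.Perm.SameCycle.refl _ _⟩⟩
          · have := part_same c _ _ h2
            rw [(part_sig_cut c m).1, part_cut1] at this
            exact absurd this (Fin.succ_ne_zero m)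
          · have := part_same c _ _ h2
            rw [part_cut2, part_cut1] at this
            exact absurd this (Fin.succ_ne_zero m)
        · rintro (h | ⟨m, ⟨h1, h2⟩ | ⟨h1, h2⟩⟩)
          · have := part_same c _ _ h
            rw [hp0, (part_sig_cut c k).1] at this
            exact absurd this.symm (Fin.succ_ne_zero k)
          · have := part_same c _ _ h2
            rw [(part_sig_cut c m).1, (part_sig_cut c k).1] at this
            have hmk : m = k := Fin.succ_injective _ this
            rw [hmk] at h1
            exact Or.inl h1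
          · have := part_same c _ _ h2
            rw [part_cut2, (part_sig_cut c k).1] at this
            have hmk : m = k := Fin.succ_injective _ this
            rw [hmk] at h2
            exact absurd h2.symm (hcase k)
    · rintro (h | ⟨m, ⟨h1, h2⟩ | ⟨h1, h2⟩⟩)
      · exact hx h
      · have := part_same c _ _ h2
        rw [(part_sig_cut c m).1, hxS.2] at this
        exact absurd this (Fin.succ_ne_zero m)
      · have := part_same c _ _ h2
        rw [part_cut2, hxS.2] at this
        exact absurd this (Fin.succ_ne_zero m)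


/-! ### The configuration -/

/-- The blocks. -/
def bpts (b : Fin 27) : Finset (Fin 27) := {pt (mk b 0), pt (mk b 1), pt (mk b 2)}

theorem inter_le : ∀ b c, b ≠ c → (bpts b ∩ bpts c).card ≤ 1 := by decide +kernel

theorem degree_eq : ∀ p, (univ.filter (fun b => p ∈ bpts b)).card = 3 := by decide +kernel

theorem card_bpts : ∀ b, (bpts b).card = 3 := by decide +kernel

/-- The configuration. -/
def X : Config (Fin 27) (Fin 27) where
  pts := bpts
  card_eq := rfl
  card_block := card_bpts
  card_degree := degree_eq
  linear p q hpq b c h1 h2 h3 h4 := by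
    by_contra hbc
    have h5 := inter_le b c hbc
    have h6 : ({p, q} : Finset (Fin 27)) ⊆ bpts b ∩ bpts c := by
      intro x hx
      rw [mem_insert, mem_singleton] at hx
      rcases hx with rfl | rfl
      · exact mem_inter.2 ⟨h1, h3⟩
      · exact mem_inter.2 ⟨h2, h4⟩
    have h7 := card_le_card h6
    rw [card_pair hpq] at h7
    omega

/-- The cyclic orders; for `e = true` the block `0` is reversed. -/
def nxt (e : Bool) (b p : Fin 27) : Fin 27 :=
  if p = pt (mk b 0) then (if e && b = 0 then pt (mk b 2) else pt (mk b 1)) else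
  if p = pt (mk b 1) then (if e && b = 0 then pt (mk b 0) else pt (mk b 2)) else
  (if e && b = 0 then pt (mk b 1) else pt (mk b 0))

theorem nxt_mem : ∀ e, ∀ b, ∀ p ∈ bpts b, nxt e b p ∈ bpts b := by decide +kernel
theorem nxt_ne : ∀ e, ∀ b, ∀ p ∈ bpts b, nxt e b p ≠ p := by decide +kernel
theorem nxt_inj : ∀ e, ∀ b, ∀ p ∈ bpts b, ∀ q ∈ bpts b, nxt e b p = nxt e b q → p = q := by
  decide +kernel

/-- The two orientations. -/
def ori (e : Bool) : Orientation X where
  next := nxt e
  mem := nxt_mem e
  ne := nxt_ne e
  inj := nxt_inj e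

theorem pt_mem : ∀ f, pt f ∈ bpts (bl f) := by decide +kernel
theorem exists_flag : ∀ b, ∀ p ∈ bpts b, ∃ k, bl (mk b k) = b ∧ pt (mk b k) = p := by
  decide +kernel
theorem three : ∀ f, ∀ x ∈ bpts (bl f), x = pt f ∨ x = pt (tau f) ∨ x = pt (tau' f) := by
  decide +kernel
theorem bl_tau : ∀ f, bl (tau f) = bl f := by decide +kernel
theorem bl_tau' : ∀ f, bl (tau' f) = bl f := by decide +kernel
theorem tau_pt : ∀ f, pt (tau f) ≠ pt f := by decide +kernel
theorem tau'_pt : ∀ f, pt (tau' f) ≠ pt f := by decide +kernel

theorem adj_iff (w x : Fin 27) : X.graph.Adj w x ↔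
    ∃ f, pt f = w ∧ (x = pt (tau f) ∨ x = pt (tau' f)) := by
  constructor
  · rintro ⟨h1, b, h2, h3⟩
    obtain ⟨k, h4, h5⟩ := exists_flag b w h2
    refine ⟨mk b k, h5, ?_⟩
    have h3' : x ∈ bpts b := h3
    rw [← h4] at h3'
    rcases three _ x h3' with h | h | h
    · exact absurd (h5.symm.trans h.symm) h1
    · exact Or.inl h
    · exact Or.inr h
  · rintro ⟨f, rfl, rfl | rfl⟩
    · refine ⟨(tau_pt f).symm, bl f, pt_mem f, ?_⟩
      have := pt_mem (tau f)
      rw [bl_tau] at this
      exact this
    · refine ⟨(tau'_pt f).symm, bl f, pt_mem f, ?_⟩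
      have := pt_mem (tau' f)
      rw [bl_tau'] at this
      exact this

/-! ### The bad orientation -/

theorem nxt_false : ∀ f, nxt false (bl f) (pt f) = pt (tau' f) := by decide +kernel
theorem pred_ne_next : ∀ f g, pt f = pt g → pt (tau f) ≠ pt (tau' g) := by decide +kernel
theorem pred_inj : ∀ f g, pt f = pt g → pt (tau f) = pt (tau g) → f = g := by decide +kernel
theorem next_inj : ∀ f g, pt f = pt g → pt (tau' f) = pt (tau' g) → f = g := by decide +kernel
theorem other_false : ∀ f b, pt f ∈ bpts b → pt (tau f) ≠ nxt false b (pt f) := by decide +kernel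

/-- A transitive self-map of a finite set is injective. -/
theorem rot_inj (R : Rotation X) (w x y : Fin 27) (hx : X.graph.Adj w x) (hy : X.graph.Adj w y)
    (h : R.rot w x = R.rot w y) : x = y := by
  classical
  set N : Finset (Fin 27) := univ.filter (fun z => X.graph.Adj w z) with hN
  have hmem : ∀ z, z ∈ N ↔ X.graph.Adj w z := fun z => by simp [hN]
  have hmaps : ∀ z ∈ N, R.rot w z ∈ N := fun z hz => (hmem _).2 (R.mem w z ((hmem z).1 hz))
  have hiter : ∀ n : ℕ, ∀ z ∈ N, (R.rot w)^[n] z ∈ N := by
    intro n
    induction n with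
    | zero => intro z hz; exact hz
    | succ n ih => intro z hz; rw [Function.iterate_succ_apply']; exact hmaps _ (ih z hz)
  have hsurj : Set.SurjOn (R.rot w) N N := by
    intro z hz
    have hz' : z ∈ N := by exact_mod_cast hz
    obtain ⟨n, hn⟩ := R.cyclic w (R.rot w z) z (R.mem w z ((hmem z).1 hz')) ((hmem z).1 hz')
    refine ⟨(R.rot w)^[n] z, by exact_mod_cast hiter n z hz', ?_⟩
    rw [← Function.iterate_succ_apply' (R.rot w) n z, Function.iterate_succ_apply]
    exact hn
  have hinj : Set.InjOn (R.rot w) N :=
    Finset.injOn_of_surjOn_of_card_le (R.rot w) (fun z hz => by exact_mod_cast hmaps z (by exact_mod_cast hz)) hsurj le_rfl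
  exact hinj (by exact_mod_cast (hmem x).2 hx) (by exact_mod_cast (hmem y).2 hy) h

theorem bad : ¬ UpperEmbeddable X (ori false) := by
  rintro ⟨R, hblock, hone⟩
  -- the block faces
  have hb : ∀ f, R.rot (pt f) (pt (tau f)) = pt (tau' f) := by
    intro f
    have h1 := hblock (bl (tau f)) (pt (tau f)) (pt_mem _)
    have h2 : (ori false).next (bl (tau f)) (pt (tau f)) = pt f := by
      show nxt false (bl (tau f)) (pt (tau f)) = pt f
      rw [nxt_false, tau'_tau]
    rw [h2] at h1
    have h3 : (ori false).next (bl (tau f)) (pt f) = pt (tau' f) := by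
      show nxt false (bl (tau f)) (pt f) = pt (tau' f)
      rw [bl_tau, nxt_false]
    rw [h3] at h1
    exact congrArg Prod.snd h1
  have adj1 : ∀ f, X.graph.Adj (pt f) (pt (tau f)) := fun f => (adj_iff _ _).2 ⟨f, rfl, Or.inl rfl⟩
  have adj2 : ∀ f, X.graph.Adj (pt f) (pt (tau' f)) := fun f =>
    (adj_iff _ _).2 ⟨f, rfl, Or.inr rfl⟩
  -- the other transitions
  have hex : ∀ f, ∃ g, pt g = pt f ∧ R.rot (pt f) (pt (tau' f)) = pt (tau g) := by
    intro f
    obtain ⟨g, hg, h | h⟩ := (adj_iff _ _).1 (R.mem _ _ (adj2 f))
    · exact ⟨g, hg, h⟩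
    · exfalso
      have h1 := hb g
      rw [hg, ← h] at h1
      have h2 := rot_inj R (pt f) _ _ (by rw [← hg]; exact adj1 g) (adj2 f) h1
      exact pred_ne_next g f hg h2
  choose σ hσ1 hσ2 using hex
  have hσne : ∀ f, σ f ≠ f := by
    intro f h
    have h1 := hσ2 f
    rw [h] at h1
    -- the two neighbours form a closed set
    have hclosed : ∀ n : ℕ, (R.rot (pt f))^[n] (pt (tau f)) = pt (tau f) ∨
        (R.rot (pt f))^[n] (pt (tau f)) = pt (tau' f) := by
      intro n
      induction n with
      | zero => exact Or.inl rfl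
      | succ n ih =>
          rw [Function.iterate_succ_apply']
          rcases ih with h | h
          · rw [h]; exact Or.inr (hb f)
          · rw [h]; exact Or.inl h1
    have h2 : X.graph.Adj (pt f) (pt (tau (R₀ f))) := by
      have := adj1 (R₀ f)
      rw [pt_R] at this
      exact this
    obtain ⟨n, hn⟩ := R.cyclic (pt f) _ _ (adj1 f) h2
    rcases hclosed n with h3 | h3
    · rw [h3] at hn
      exact R_ne f (pred_inj f (R₀ f) (pt_R f).symm hn).symm
    · rw [h3] at hn
      exact pred_ne_next (R₀ f) f (pt_R f) hn.symm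
  have hσinj : ∀ f g, σ f = σ g → f = g := by
    intro f g h
    have hpt : pt f = pt g := by rw [← hσ1 f, h, hσ1 g]
    have h1 := hσ2 f
    have h2 := hσ2 g
    rw [h, ← h2, ← hpt] at h1
    exact next_inj f g hpt (rot_inj R (pt f) _ _ (adj2 f) (by rw [hpt]; exact adj2 g) h1)
  -- `σ` is given by a choice `c`
  have hval : ∀ f, σ f = R₀ f ∨ σ f = R₀ (R₀ f) := by
    intro f
    rcases fiber f (σ f) (hσ1 f).symm with h | h | h
    · exact absurd h (hσne f)
    · exact Or.inl h
    · exact Or.inr h
  have hA : ∀ f, σ f = R₀ f → σ (R₀ f) = R₀ (R₀ f) := by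
    intro f h
    rcases hval (R₀ f) with h1 | h1
    · exact h1
    · exfalso
      rw [RRR] at h1
      rcases hval (R₀ (R₀ f)) with h2 | h2
      · rw [RRR] at h2
        exact R_ne (R₀ f) (hσinj _ _ (h2.trans h1.symm))
      · rw [RRR] at h2
        exact RR_ne f (hσinj _ _ (h2.trans h.symm))
  have hB : ∀ f, σ f = R₀ (R₀ f) → σ (R₀ f) = R₀ (R₀ (R₀ f)) := by
    intro f h
    rcases hval (R₀ f) with h1 | h1
    · exact absurd (hσinj _ _ (h1.trans h.symm)) (R_ne f)
    · exact h1
  classical
  set c : Fin 27 → Bool := fun p => decide (σ (fl p) = R₀ (fl p)) with hc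
  have hσc : ∀ f, σ f = sig c f := by
    intro f
    obtain ⟨z, hz⟩ : ∃ z, z = fl (pt f) := ⟨_, rfl⟩
    have hpz : pt z = pt f := by rw [hz, pt_fl]
    unfold sig
    by_cases h : σ z = R₀ z
    · have hcz : c (pt f) = true := by rw [hc]; simp only [← hz, h, decide_true]
      rw [if_pos hcz]
      rcases fiber z f hpz with e | e | e
      · rw [e]; exact h
      · rw [e]; exact hA z h
      · rw [e]; exact hA _ (hA z h)
    · have hcz : ¬ c (pt f) = true := by rw [hc]; simp only [← hz, h, decide_false]; decide
      have h' := (hval z).resolve_left h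
      rw [if_neg hcz]
      rcases fiber z f hpz with e | e | e
      · rw [e]; exact h'
      · rw [e]; exact hB z h'
      · rw [e]; exact hB _ (hB z h')
  -- face tracing
  set δ : Fin 81 → Fin 27 × Fin 27 := fun f => (pt f, pt (tau f)) with hδ
  have hface : ∀ f, R.face (δ f) = δ (sig c (tau f)) := by
    intro f
    have h1 := hσ2 (tau f)
    rw [tau'_tau] at h1
    have h2 := hσ1 (tau f)
    rw [hσc] at h1 h2
    show (pt (tau f), R.rot (pt (tau f)) (pt f)) = (pt (sig c (tau f)), pt (tau (sig c (tau f))))
    rw [h1, h2]
  have hother : ∀ f, Other (ori false) (δ f) := by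
    intro f
    refine ⟨adj1 f, ?_⟩
    rintro ⟨b, h1, h2⟩
    exact other_false f b h1 h2
  have hδinj : ∀ f g, δ f = δ g → f = g := by
    intro f g h
    exact pred_inj f g (congrArg Prod.fst h) (congrArg Prod.snd h)
  refine not_transitive c fun f g => ?_
  obtain ⟨n, hn⟩ := hone _ _ (hother f) (hother g)
  refine ⟨n, hδinj _ _ ?_⟩
  rw [← hn]
  clear hn
  induction n with
  | zero => rfl
  | succ n ih => rw [Function.iterate_succ_apply', Function.iterate_succ_apply', ← ih, hface]

/-! ### The good orientation -/

/-- The rotation system. -/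
def tRot : ℕ := 3813389136102608389658762233452975528110992300526504983464693759174759573991059969089077595466333354518985278398451782009350280688389156448399521628057336368784979281802754187823575149051022792016069294933114357206208292673366551754830189144282406980751522616591798575508529976104693422236124053939207797192166320799036760176102983340550749348582976043522623640418482072166770284659978117698177613281655672004277049907104866371337303301651492650464392661352206248346608079293669608782726960478858431552944522988793947406054751139579800350932799636413731613843048661692602482424392923416359254802097633653060013475580746394047672152671115570475753837383223969740857355302492324884605423819304543299825272259577455293915778670986599623879030623558326669975437746694015228251907427057349037837383605708213037911617297463830416568906340409782758702780215380917931211401543194391200427640960535394159817219211222015576583455012599310922829965237296445544800327961308321945239347163886224128899084994110495010605210263662747927149215958857092743887589079286412308129088062762625610700701544191631592736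

/-- The flags in the order of the face. -/
def tOrd : ℕ := 66531192568102100413102052248000914342493911069887218058537430378867970320625343566414332305363799101250926416639232500239906753787256102967396739961778550025516371591808

/-- The positions of the flags. -/
def tInv : ℕ := 300369671043422948372634113583408991934268773510954529713088497320548834849539726043588891318519986664590735896908177308150430852686815661664487988430261656769318422108032

/-- The rotation system. -/
def rotT (p q : Fin 27) : Fin 27 :=
  ⟨tRot / 32 ^ (27 * p.val + q.val) % 32 % 27, Nat.mod_lt _ (by norm_num)⟩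

/-- The flag of the preceding point in the good orientation. -/
def taug (f : Fin 81) : Fin 81 := if f.val < 3 then tau' f else tau f

theorem rot_mem : ∀ f, (∃ g, pt g = pt f ∧ (rotT (pt f) (pt (tau f)) = pt (tau g) ∨
    rotT (pt f) (pt (tau f)) = pt (tau' g))) ∧ (∃ g, pt g = pt f ∧
    (rotT (pt f) (pt (tau' f)) = pt (tau g) ∨ rotT (pt f) (pt (tau' f)) = pt (tau' g))) := by
  decide +kernel

theorem rot_six : ∀ p, (rotT p)^[6] (pt (tau (fl p))) = pt (tau (fl p)) := by decide +kernel

theorem rot_reach : ∀ f, (∃ n ∈ range 6, (rotT (pt f))^[n] (pt (tau (fl (pt f)))) = pt (tau f)) ∧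
    (∃ n ∈ range 6, (rotT (pt f))^[n] (pt (tau (fl (pt f)))) = pt (tau' f)) := by decide +kernel

/-- The rotation system of the good embedding. -/
def Rg : Rotation X where
  rot := rotT
  mem p q h := by
    obtain ⟨f, rfl, rfl | rfl⟩ := (adj_iff _ _).1 h
    · obtain ⟨g, hg, h1⟩ := (rot_mem f).1
      exact (adj_iff _ _).2 ⟨g, hg, h1⟩
    · obtain ⟨g, hg, h1⟩ := (rot_mem f).2
      exact (adj_iff _ _).2 ⟨g, hg, h1⟩
  cyclic p q r hq hr := by
    have key : ∀ x, X.graph.Adj p x → ∃ n, n < 6 ∧ (rotT p)^[n] (pt (tau (fl p))) = x := by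
      intro x hx
      obtain ⟨f, rfl, rfl | rfl⟩ := (adj_iff _ _).1 hx
      · obtain ⟨n, hn, h⟩ := (rot_reach f).1
        exact ⟨n, mem_range.1 hn, h⟩
      · obtain ⟨n, hn, h⟩ := (rot_reach f).2
        exact ⟨n, mem_range.1 hn, h⟩
    obtain ⟨i, hi, rfl⟩ := key q hq
    obtain ⟨j, hj, rfl⟩ := key r hr
    refine ⟨j + (6 - i), ?_⟩
    rw [← Function.iterate_add_apply, show j + (6 - i) + i = j + 6 by omega,
      Function.iterate_add_apply, rot_six]

theorem good_block : ∀ b, ∀ p ∈ bpts b,
    (nxt true b p, rotT (nxt true b p) p) = (nxt true b p, nxt true b (nxt true b p)) := by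
  decide +kernel

theorem good_next : ∀ f, ∀ x, (x = pt (tau f) ∨ x = pt (tau' f)) →
    x = nxt true (bl f) (pt f) ∨ x = pt (taug f) := by decide +kernel

theorem good_face : ∀ i : Fin 81, (pt (taug (look tOrd i)), rotT (pt (taug (look tOrd i)))
    (pt (look tOrd i))) = (pt (look tOrd (i + 1)), pt (taug (look tOrd (i + 1)))) := by
  decide +kernel

theorem ord_inv : ∀ f, look tOrd (look tInv f) = f := by decide +kernel

theorem good : UpperEmbeddable X (ori true) := by
  refine ⟨Rg, fun b p hp => good_block b p hp, ?_⟩
  have key : ∀ d, Other (ori true) d → ∃ i : Fin 81,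
      d = (pt (look tOrd i), pt (taug (look tOrd i))) := by
    rintro ⟨w, x⟩ ⟨h1, h2⟩
    obtain ⟨f, hf, hx⟩ := (adj_iff _ _).1 h1
    simp only at hf hx
    subst hf
    rcases good_next f x hx with h | h
    · exact absurd ⟨bl f, pt_mem f, h⟩ h2
    · exact ⟨look tInv f, by rw [ord_inv, h]⟩
  intro d d' hd hd'
  obtain ⟨i, rfl⟩ := key d hd
  obtain ⟨j, rfl⟩ := key d' hd'
  have hiter : ∀ n : ℕ, Rg.face^[n] (pt (look tOrd i), pt (taug (look tOrd i))) =
      (pt (look tOrd (i + Fin.ofNat 81 n)), pt (taug (look tOrd (i + Fin.ofNat 81 n)))) := by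
    intro n
    induction n with
    | zero =>
        have h0 : i + Fin.ofNat 81 0 = i := by
          have : Fin.ofNat 81 0 = 0 := rfl
          rw [this, add_zero]
        rw [h0]
        rfl
    | succ n ih =>
        have h1 : i + Fin.ofNat 81 (n + 1) = i + Fin.ofNat 81 n + 1 := by
          rw [add_assoc]
          congr 1
          apply Fin.ext
          rw [Fin.val_add]
          show (n + 1) % 81 = (n % 81 + 1) % 81
          omega
        rw [Function.iterate_succ_apply', ih, h1]
        exact good_face _
  refine ⟨(j - i).val, ?_⟩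
  have h2 : i + Fin.ofNat 81 (j - i).val = j := by
    have : Fin.ofNat 81 (j - i).val = j - i := Fin.ext (Nat.mod_eq_of_lt (j - i).2)
    rw [this, add_sub_cancel]
  rw [hiter, h2]

/-! ### Connectedness -/

theorem smaller : ∀ p : Fin 27, p ≠ 0 → ∃ q, q < p ∧ ∃ b, p ∈ bpts b ∧ q ∈ bpts b := by
  decide +kernel

theorem connected : X.graph.Connected := by
  have key : ∀ n : ℕ, ∀ p : Fin 27, p.val = n → X.graph.Reachable p 0 := by
    intro n
    induction n using Nat.strong_induction_on with
    | _ n ih =>
        intro p hp
        by_cases h0 : p = 0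
        · rw [h0]
        · obtain ⟨q, hq, b, h1, h2⟩ := smaller p h0
          have hadj : X.graph.Adj p q := ⟨hq.ne', b, h1, h2⟩
          exact hadj.reachable.trans (ih q.val (by rw [← hp]; exact hq) q rfl)
  exact ⟨fun p q => (key _ p rfl).trans (key _ q rfl).symm⟩

/-- There is a connected symmetric configuration `v₃` (with `27` points) that is upper embeddable
in one orientation but not in another one. -/
theorem result : ∃ X : Config (Fin 27) (Fin 27), X.graph.Connected ∧
    ∃ ω₁ ω₂ : Orientation X, UpperEmbeddable X ω₁ ∧ ¬ UpperEmbeddable X ω₂ :=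
  ⟨X, connected, ori true, ori false, good, bad⟩

end Pool.Agent.Results.MP_e7dc11_co.OrientationDependence
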